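import Pool.Agent.H24.Scfa1

namespace Pool.Agent.Results.MP_020f70_lc.NoFamily

open Pool.Agent.H24.Scfa

theorem result (𝓛 : ∀ Q : Type, Language Q → Prop) :
    ¬ ((∀ (T : Type) [Finite T] (G : MG T), SCFA 𝓛 G.lang) ∧
      ∀ (T : Type) [Finite T] (L : Language T), SCFA 𝓛 L →
        ∃ G : MG T, ∀ w, w ≠ [] → (w ∈ L ↔ w ∈ G.lang)) :=
  fun h => main 𝓛 h.1 h.2

end Pool.Agent.Results.MP_020f70_lc.NoFamily
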